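import Mathlib

/-!
# Countable ordinals and a bistationary set
-/

set_option autoImplicit false
open Set Cardinal

namespace Pool.Agent.N480.Blum

/-- the set of countable ordinals -/
abbrev Om : Type := (ℵ_ 1).ord.ToType

lemma mk_Om : #Om = ℵ_ 1 := by simp [Om]

lemma countable_Iio (a : Om) : (Iio a).Countable := by
  have h := Cardinal.mk_Iio_toType_ord_lt a
  rw [← Cardinal.le_aleph0_iff_set_countable]
  exact Order.lt_succ_iff.1 (h.trans_eq succ_aleph0.symm)

lemma countable_Iic (a : Om) : (Iic a).Countable := by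
  have : Iic a = insert a (Iio a) := by
    ext x; simp [le_iff_eq_or_lt]
  rw [this]
  exact (countable_Iio a).insert a

lemma exists_bound {C : Set Om} (hC : C.Countable) : ∃ b, ∀ x ∈ C, x < b := by
  by_contra hcon
  push Not at hcon
  have h1 : (univ : Set Om) ⊆ ⋃ x ∈ C, Iic x := by
    intro b _
    obtain ⟨x, hx, hbx⟩ := hcon b
    exact mem_biUnion hx hbx
  have h2 : (univ : Set Om).Countable :=
    (hC.biUnion (fun x _ => countable_Iic x)).mono h1
  rw [← Cardinal.le_aleph0_iff_set_countable, mk_univ, mk_Om] at h2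
  exact absurd h2 (not_le.2 aleph0_lt_aleph_one)

lemma exists_gt (a : Om) : ∃ b, a < b := by
  obtain ⟨b, hb⟩ := exists_bound (countable_singleton a)
  exact ⟨b, hb a rfl⟩

/-- closure points of countably many functions -/
lemma exists_closed_pt (g : ℕ → Om → Om) (a : Om) :
    ∃ δ, a < δ ∧ ∀ n, ∀ γ, γ < δ → g n γ < δ := by
  have h1 : ∀ b : Om, ∃ c, b < c ∧ ∀ n, ∀ γ, γ ≤ b → g n γ < c := by
    intro b
    have hc : (insert b (⋃ n, (g n) '' (Iic b))).Countable :=
      (countable_iUnion fun n => (countable_Iic b).image _).insert b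
    obtain ⟨c, hc⟩ := exists_bound hc
    refine ⟨c, hc b (mem_insert _ _), fun n γ hγ => hc _ (mem_insert_of_mem _ ?_)⟩
    exact mem_iUnion.2 ⟨n, γ, hγ, rfl⟩
  choose nx hnx1 hnx2 using h1
  let x : ℕ → Om := fun k => Nat.rec a (fun _ b => nx b) k
  have hx0 : x 0 = a := rfl
  have hxs : ∀ k, x (k + 1) = nx (x k) := fun k => rfl
  have hex : {d : Om | ∀ k, x k < d}.Nonempty := by
    obtain ⟨d, hd⟩ := exists_bound (countable_range x)
    exact ⟨d, fun k => hd _ ⟨k, rfl⟩⟩
  refine ⟨wellFounded_lt.min _ hex, ?_, ?_⟩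
  · have := wellFounded_lt.min_mem _ hex
    exact this 0
  · intro n γ hγ
    have h2 : γ ∉ {d : Om | ∀ k, x k < d} := fun h =>
      (wellFounded_lt.not_lt_min _ h) hγ
    have h3 : ∃ k, γ ≤ x k := by
      by_contra hcon
      push Not at hcon
      exact h2 hcon
    obtain ⟨k, hk⟩ := h3
    have h4 := hnx2 (x k) n γ hk
    rw [← hxs] at h4
    exact h4.trans (wellFounded_lt.min_mem _ hex (k + 1))

/-- stationary sets of countable ordinals -/
def St (S : Set Om) : Prop :=
  ∀ (g : Om → Om) (a : Om), ∃ δ ∈ S, a < δ ∧ ∀ γ, γ < δ → g γ < δ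

lemma not_st {S : Set Om} (h : ¬ St S) :
    ∃ (g : Om → Om) (a : Om), ∀ δ, a < δ → (∀ γ, γ < δ → g γ < δ) → δ ∉ S := by
  unfold St at h
  push Not at h
  obtain ⟨g, a, h⟩ := h
  refine ⟨g, a, fun δ h1 h2 h3 => ?_⟩
  obtain ⟨γ, h4, h5⟩ := h δ h3 h1
  exact absurd (h2 γ h4) (not_lt.2 h5)

lemma exists_inj : ∃ r : Om → (ℕ → Bool), Function.Injective r := by
  have h : #Om ≤ #(ℕ → Bool) := by
    rw [mk_Om]
    refine aleph_one_le_continuum.trans ?_
    simp
  exact ⟨h.some, h.some.injective⟩

/-- There is a stationary set with stationary complement. -/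
theorem exists_bistat : ∃ S : Set Om, St S ∧ St Sᶜ := by
  by_contra hcon
  push Not at hcon
  obtain ⟨r, hr⟩ := exists_inj
  have h1 : ∀ n : ℕ, ∃ b : Bool, ¬ St {α | r α n ≠ b} := by
    intro n
    by_cases h : St {α | r α n ≠ true}
    · refine ⟨false, ?_⟩
      have h2 := hcon _ h
      have h3 : {α | r α n ≠ true}ᶜ = {α | r α n ≠ false} := by
        ext α; simp
      rwa [h3] at h2
    · exact ⟨true, h⟩
  choose b hb using h1
  have h2 := fun n => not_st (hb n)
  choose g a hga using h2
  obtain ⟨a0, ha0⟩ := exists_bound (countable_range a)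
  have key : ∀ δ, a0 < δ → (∀ n, ∀ γ, γ < δ → g n γ < δ) → r δ = b := by
    intro δ h1 h2
    funext n
    have h3 := hga n δ ((ha0 _ ⟨n, rfl⟩).trans h1) (h2 n)
    by_contra h4
    exact h3 h4
  obtain ⟨δ, h3, h4⟩ := exists_closed_pt g a0
  obtain ⟨δ', h5, h6⟩ := exists_closed_pt g δ
  have h7 := (key δ h3 h4).trans (key δ' (h3.trans h5) h6).symm
  exact h5.ne (hr h7)

lemma St.exists_gt {S : Set Om} (h : St S) (a : Om) : ∃ δ ∈ S, a < δ := by
  obtain ⟨δ, h1, h2, -⟩ := h id a
  exact ⟨δ, h1, h2⟩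

/-- a linear order in which all sets have least upper bounds is compact -/
theorem compactSpace_of_lub (α : Type) [LinearOrder α] [TopologicalSpace α] [OrderTopology α]
    (hs : ∀ s : Set α, ∃ b, IsLUB s b) : CompactSpace α := by
  choose sup hsup using hs
  let CL : CompleteLattice α :=
    { (inferInstance : Lattice α) with
      sSup := sup
      sInf := fun s => sup (lowerBounds s)
      top := sup univ
      bot := sup ∅
      le_top := fun a => (hsup univ).1 (mem_univ a)
      bot_le := fun a => (hsup ∅).2 (by simp)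
      isLUB_sSup := hsup
      isGLB_sInf := fun s => by
        refine ⟨fun a ha => (hsup _).2 (fun b hb => hb ha), fun b hb => (hsup _).1 hb⟩ }
  let CLO : CompleteLinearOrder α :=
    { (inferInstance : LinearOrder α), CL, LinearOrder.toBiheytingAlgebra α with }
  exact compactSpace_of_completeLinearOrder

end Pool.Agent.N480.Blum
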