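import Mathlib
import Pool.Agent.N480.Blum.Om

/-!
# A compact linearly ordered space without the Blumberg property

`S` is a stationary set of countable ordinals with stationary complement.  The points are the
sets `A ⊆ S` of countable ordinals which contain each of their limits below their supremum,
ordered lexicographically.
-/

set_option autoImplicit false
open Set Cardinal Topology

namespace Pool.Agent.N480.Blum

/-- `δ` is a limit of `A` from below -/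
def Lim (A : Om → Prop) (δ : Om) : Prop :=
  (∃ x, x < δ) ∧ ∀ x, x < δ → ∃ a, A a ∧ x < a ∧ a < δ

/-- the conditions for points -/
def Pt (S : Set Om) (A : Om → Prop) : Prop :=
  (∀ a, A a → a ∈ S) ∧ ∀ δ, Lim A δ → (∃ a, A a ∧ δ < a) → A δ

/-- The space. -/
def X (S : Set Om) : Type := {A : Lex (Om → Bool) // Pt S (fun i => ofLex A i = true)}

noncomputable instance (S : Set Om) : LinearOrder (X S) :=
  inferInstanceAs (LinearOrder {A : Lex (Om → Bool) // Pt S (fun i => ofLex A i = true)})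

variable {S : Set Om}

/-- membership -/
def X.m (A : X S) (i : Om) : Prop := ofLex A.1 i = true

lemma X.pt (A : X S) : Pt S A.m := A.2

open Classical in
/-- construction of points -/
noncomputable def mk (A : Om → Prop) (h : Pt S A) : X S :=
  ⟨toLex (fun i => decide (A i)), by simpa using h⟩

lemma mk_m (A : Om → Prop) (h : Pt S A) (i : Om) : (mk A h).m i ↔ A i := by
  simp [mk, X.m]

lemma X.ext' {A B : X S} (h : ∀ i, A.m i ↔ B.m i) : A = B := by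
  apply Subtype.ext
  apply ofLex.injective
  funext i
  have := h i
  unfold X.m at this
  exact Bool.eq_iff_iff.2 this

lemma lt_iff {A B : X S} : A < B ↔ ∃ i, (∀ j, j < i → (A.m j ↔ B.m j)) ∧ ¬ A.m i ∧ B.m i := by
  have h1 : A < B ↔ ∃ i, (∀ j, j < i → ofLex A.1 j = ofLex B.1 j) ∧ ofLex A.1 i < ofLex B.1 i :=
    Iff.rfl
  rw [h1]
  refine exists_congr fun i => and_congr (forall_congr' fun j => imp_congr_right fun _ => ?_) ?_
  · exact Bool.eq_iff_iff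
  · unfold X.m
    cases ofLex A.1 i <;> cases ofLex B.1 i <;> simp

/-- the least upper bound, by recursion -/
noncomputable def supF (F : Set (X S)) : Om → Prop :=
  (wellFounded_lt (α := Om)).fix fun α rec =>
    ∃ A ∈ F, (∀ β (h : β < α), A.m β ↔ rec β h) ∧ A.m α

lemma supF_iff (F : Set (X S)) (α : Om) :
    supF F α ↔ ∃ A ∈ F, (∀ β, β < α → (A.m β ↔ supF F β)) ∧ A.m α := by
  have := (wellFounded_lt (α := Om)).fix_eq (C := fun _ => Prop) (fun α rec =>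
    ∃ A ∈ F, (∀ β (h : β < α), A.m β ↔ rec β h) ∧ A.m α) α
  exact Iff.of_eq this

lemma supF_pt (F : Set (X S)) : Pt S (supF F) := by
  refine ⟨fun a ha => ?_, fun δ hδ ⟨γ, hγ, hδγ⟩ => ?_⟩
  · obtain ⟨A, -, -, hA⟩ := (supF_iff F a).1 ha
    exact A.pt.1 a hA
  · obtain ⟨A, hAF, hA, hAγ⟩ := (supF_iff F γ).1 hγ
    rw [← hA δ hδγ]
    refine A.pt.2 δ ⟨hδ.1, fun x hx => ?_⟩ ⟨γ, hAγ, hδγ⟩
    obtain ⟨a, h1, h2, h3⟩ := hδ.2 x hx
    exact ⟨a, (hA a (h3.trans hδγ)).2 h1, h2, h3⟩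

lemma exists_lub (F : Set (X S)) : ∃ b, IsLUB F b := by
  refine ⟨mk (supF F) (supF_pt F), ?_, ?_⟩
  · intro A hA
    by_contra hcon
    obtain ⟨i, h1, h2, h3⟩ := lt_iff.1 (not_le.1 hcon)
    rw [mk_m] at h2
    refine h2 ((supF_iff F i).2 ⟨A, hA, fun β hβ => ?_, h3⟩)
    have := h1 β hβ
    rw [mk_m] at this
    exact this.symm
  · intro B hB
    by_contra hcon
    obtain ⟨i, h1, h2, h3⟩ := lt_iff.1 (not_le.1 hcon)
    rw [mk_m] at h3
    obtain ⟨A, hA, h4, h5⟩ := (supF_iff F i).1 h3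
    have h6 : A ≤ B := hB hA
    refine absurd h6 (not_le.2 (lt_iff.2 ⟨i, fun j hj => ?_, h2, h5⟩))
    have := h1 j hj
    rw [mk_m] at this
    exact this.trans (h4 j hj).symm

/-- comparison by inclusion below `γ` -/
lemma lt_of_sub {A B : X S} (γ : Om) (h : ∀ j, j < γ → A.m j → B.m j)
    (h' : ∃ j, j < γ ∧ B.m j ∧ ¬ A.m j) : A < B := by
  have hex : {j : Om | j < γ ∧ B.m j ∧ ¬ A.m j}.Nonempty := h'
  have hmem := wellFounded_lt.min_mem _ hex
  refine lt_iff.2 ⟨wellFounded_lt.min _ hex, fun j hj => ?_, hmem.2.2, hmem.2.1⟩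
  have hjγ : j < γ := hj.trans hmem.1
  refine ⟨h j hjγ, fun hB => ?_⟩
  by_contra hA
  have hj' : j ∈ {j : Om | j < γ ∧ B.m j ∧ ¬ A.m j} := ⟨hjγ, hB, hA⟩
  exact wellFounded_lt.not_lt_min _ hj' hj

/-- the cone of all points which agree with `A` up to `μ` -/
def cone (A : X S) (μ : Om) : Set (X S) := {B | ∀ j, j ≤ μ → (B.m j ↔ A.m j)}

/-- `A` cut off at `μ` with an additional point `γ`. -/
def cut (A : X S) (μ γ : Om) (i : Om) : Prop := (A.m i ∧ i ≤ μ) ∨ i = γ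

lemma cut_pt (A : X S) (μ γ : Om) (hγ : γ ∈ S) (hμγ : μ < γ)
    (hμ : ∀ δ, δ ≤ μ → Lim A.m δ → (∀ a, A.m a → a ≤ μ → a ≤ δ) → A.m δ) :
    Pt S (cut A μ γ) := by
  refine ⟨?_, ?_⟩
  · rintro a (⟨h1, -⟩ | rfl)
    · exact A.pt.1 a h1
    · exact hγ
  · rintro δ ⟨⟨x0, hx0⟩, hlim⟩ ⟨γ', hγ', hδγ'⟩
    have hγ'γ : γ' ≤ γ := by
      rcases hγ' with ⟨-, h⟩ | h
      · exact h.trans hμγ.le
      · exact h.le
    have hδγ : δ < γ := lt_of_lt_of_le hδγ' hγ'γ
    have hlim' : Lim A.m δ := by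
      refine ⟨⟨x0, hx0⟩, fun x hx => ?_⟩
      obtain ⟨a, ha, h1, h2⟩ := hlim x hx
      rcases ha with ⟨ha, -⟩ | rfl
      · exact ⟨a, ha, h1, h2⟩
      · exact absurd h2 (not_lt.2 hδγ.le)
    have hδμ : δ ≤ μ := by
      by_contra hcon
      push Not at hcon
      obtain ⟨a, ha, h1, h2⟩ := hlim μ hcon
      rcases ha with ⟨-, ha⟩ | rfl
      · exact absurd h1 (not_lt.2 ha)
      · exact absurd h2 (not_lt.2 hδγ.le)
    by_cases hex : ∃ a, A.m a ∧ a ≤ μ ∧ δ < a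
    · obtain ⟨a, h1, h2, h3⟩ := hex
      exact Or.inl ⟨A.pt.2 δ hlim' ⟨a, h1, h3⟩, hδμ⟩
    · push Not at hex
      exact Or.inl ⟨hμ δ hδμ hlim' hex, hδμ⟩

lemma cut_pt' (A : X S) (μ γ : Om) (hγ : γ ∈ S) (hμγ : μ < γ) (hA : A.m μ) :
    Pt S (cut A μ γ) := by
  refine cut_pt A μ γ hγ hμγ ?_
  intro δ h1 h2 h3
  have : δ = μ := le_antisymm h1 (h3 μ hA le_rfl)
  rw [this]; exact hA

/-- A cone contains a nonempty open set. -/
lemma cone_open [TopologicalSpace (X S)] [OrderTopology (X S)] (hS : St S) (A : X S) (μ : Om)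
    (hA : A.m μ) : ∃ W : Set (X S), IsOpen W ∧ W.Nonempty ∧ W ⊆ cone A μ := by
  obtain ⟨γ0, h01, h02⟩ := hS.exists_gt μ
  obtain ⟨γ1, h11, h12⟩ := hS.exists_gt γ0
  obtain ⟨γ2, h21, h22⟩ := hS.exists_gt γ1
  let R : X S := mk _ (cut_pt' A μ γ0 h01 h02 hA)
  let M : X S := mk _ (cut_pt' A μ γ1 h11 (h02.trans h12) hA)
  let L : X S := mk _ (cut_pt' A μ γ2 h21 ((h02.trans h12).trans h22) hA)
  have hR : ∀ i, R.m i ↔ cut A μ γ0 i := mk_m _ _
  have hM : ∀ i, M.m i ↔ cut A μ γ1 i := mk_m _ _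
  have hL : ∀ i, L.m i ↔ cut A μ γ2 i := mk_m _ _
  have hLM : L < M := by
    refine lt_of_sub γ2 (fun j hj h => ?_) ⟨γ1, h22, (hM γ1).2 (Or.inr rfl), fun h => ?_⟩
    · rw [hM]
      rcases (hL j).1 h with h | h
      · exact Or.inl h
      · exact absurd h hj.ne
    · rcases (hL γ1).1 h with h | h
      · exact absurd h.2 (not_le.2 (h02.trans h12))
      · exact absurd h h22.ne
  have hMR : M < R := by
    refine lt_of_sub γ1 (fun j hj h => ?_) ⟨γ0, h12, (hR γ0).2 (Or.inr rfl), fun h => ?_⟩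
    · rw [hR]
      rcases (hM j).1 h with h | h
      · exact Or.inl h
      · exact absurd h hj.ne
    · rcases (hM γ0).1 h with h | h
      · exact absurd h.2 (not_le.2 h02)
      · exact absurd h h12.ne
  refine ⟨Ioo L R, isOpen_Ioo, ⟨M, hLM, hMR⟩, ?_⟩
  rintro B ⟨hLB, hBR⟩
  -- all points between `L` and `R` agree with them up to `μ`
  have hag : ∀ j, j ≤ μ → (L.m j ↔ R.m j) := by
    intro j hj
    rw [hL, hR]
    have h1 : j ≠ γ2 := (lt_of_le_of_lt hj ((h02.trans h12).trans h22)).ne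
    have h2 : j ≠ γ0 := (lt_of_le_of_lt hj h02).ne
    simp [cut, h1, h2]
  have hLA : ∀ j, j ≤ μ → (L.m j ↔ A.m j) := by
    intro j hj
    rw [hL]
    have h1 : j ≠ γ2 := (lt_of_le_of_lt hj ((h02.trans h12).trans h22)).ne
    simp [cut, h1, hj]
  obtain ⟨i, h1, h2, h3⟩ := lt_iff.1 hLB
  obtain ⟨k, h4, h5, h6⟩ := lt_iff.1 hBR
  have hi : μ < i := by
    by_contra hcon
    push Not at hcon
    -- `i ≤ μ`: `B` has `i`, `L` and hence `R` do not
    rcases lt_trichotomy i k with hik | rfl | hik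
    · exact h2 ((hag i hcon).2 ((h4 i hik).1 h3))
    · exact h5 h3
    · have : k ≤ μ := hik.le.trans hcon
      exact h5 ((h1 k hik).1 ((hag k this).2 h6))
  intro j hj
  rw [← hLA j hj]
  exact (h1 j (lt_of_le_of_lt hj hi)).symm

lemma bounded (hS' : St Sᶜ) (A : X S) : ∃ b, ∀ a, A.m a → a < b := by
  by_contra hcon
  push Not at hcon
  have h1 : ∀ x, ∃ a, A.m a ∧ x < a := by
    intro x
    obtain ⟨y, hy⟩ := exists_gt x
    obtain ⟨a, ha, hya⟩ := hcon y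
    exact ⟨a, ha, hy.trans_le hya⟩
  choose g hg1 hg2 using h1
  obtain ⟨b0, -⟩ := exists_bound countable_empty
  obtain ⟨δ, h1, h2, h3⟩ := hS' g b0
  exact h1 (A.pt.1 δ (A.pt.2 δ ⟨⟨b0, h2⟩, fun x hx => ⟨g x, hg1 x, hg2 x, h3 x hx⟩⟩
    ⟨g δ, hg1 δ, hg2 δ⟩))

/-- Every nonempty open set contains a cone. -/
lemma exists_cone [TopologicalSpace (X S)] [OrderTopology (X S)] (hS : St S) (hS' : St Sᶜ)
    (U : Set (X S)) (hU : IsOpen U) (hne : U.Nonempty) :
    ∃ (A : X S) (μ : Om), A.m μ ∧ cone A μ ⊆ U := by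
  obtain ⟨A, hAU⟩ := hne
  have hnhds : U ∈ 𝓝 A := hU.mem_nhds hAU
  by_cases hcl : ∀ δ, Lim A.m δ → A.m δ
  · -- `A` is closed and bounded
    obtain ⟨b, hb⟩ := bounded hS' A
    have hpt : ∀ γ, γ ∈ S → b < γ → Pt S (cut A b γ) := fun γ h1 h2 =>
      cut_pt A b γ h1 h2 (fun δ _ h _ => hcl δ h)
    have hAlt : ∀ γ (h1 : γ ∈ S) (h2 : b < γ) (B : X S),
        (∀ j, j ≤ γ → (B.m j ↔ cut A b γ j)) → A < B := by
      intro γ h1 h2 B hB
      refine lt_iff.2 ⟨γ, fun j hj => ?_, fun h => ?_, (hB γ le_rfl).2 (Or.inr rfl)⟩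
      · rw [hB j hj.le]
        unfold cut
        constructor
        · intro h
          exact Or.inl ⟨h, (hb j h).le⟩
        · rintro (⟨h, -⟩ | h)
          · exact h
          · exact absurd h hj.ne
      · exact absurd (hb γ h) (not_lt.2 h2.le)
    obtain ⟨γ0, h01, h02⟩ := hS.exists_gt b
    obtain ⟨R, hAR, hR⟩ := exists_Ico_subset_of_mem_nhds hnhds
      ⟨mk _ (hpt γ0 h01 h02), hAlt γ0 h01 h02 _ (fun j _ => mk_m _ _ j)⟩
    obtain ⟨α, h1, h2, h3⟩ := lt_iff.1 hAR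
    obtain ⟨γ, hγ1, hγ2⟩ := hS.exists_gt (max b α)
    have hbγ : b < γ := (le_max_left _ _).trans_lt hγ2
    have hαγ : α < γ := (le_max_right _ _).trans_lt hγ2
    refine ⟨mk _ (hpt γ hγ1 hbγ), γ, (mk_m _ _ γ).2 (Or.inr rfl), fun B hB => hR ?_⟩
    have hB' : ∀ j, j ≤ γ → (B.m j ↔ cut A b γ j) := fun j hj => by
      rw [hB j hj, mk_m]
    refine ⟨(hAlt γ hγ1 hbγ B hB').le, lt_iff.2 ⟨α, fun j hj => ?_, ?_, h3⟩⟩
    · rw [← h1 j hj, hB' j (hj.trans hαγ).le]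
      unfold cut
      constructor
      · rintro (⟨h, -⟩ | h)
        · exact h
        · exact absurd h (hj.trans hαγ).ne
      · intro h
        exact Or.inl ⟨h, (hb j h).le⟩
    · rw [hB' α hαγ.le]
      rintro (⟨h, -⟩ | h)
      · exact h2 h
      · exact absurd h hαγ.ne
  · -- `A` has a missing limit
    push Not at hcl
    obtain ⟨δ, hlim, hδ⟩ := hcl
    have hlt : ∀ a, A.m a → a < δ := by
      intro a ha
      by_contra hcon
      push Not at hcon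
      rcases hcon.eq_or_lt with h | h
      · exact hδ (h ▸ ha)
      · exact hδ (A.pt.2 δ hlim ⟨a, ha, h⟩)
    obtain ⟨⟨x0, hx0⟩, hlim2⟩ := hlim
    obtain ⟨a0, ha0, -, ha0δ⟩ := hlim2 x0 hx0
    have hE : Pt S (fun _ : Om => False) :=
      ⟨fun a h => h.elim, fun d h _ => by
        obtain ⟨⟨x, hx⟩, h2⟩ := h
        obtain ⟨a, ha, -⟩ := h2 x hx
        exact ha⟩
    have hEA : mk _ hE < A := by
      refine lt_of_sub δ (fun j _ h => ?_) ⟨a0, ha0δ, ha0, fun h => ?_⟩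
      · rw [mk_m] at h; exact h.elim
      · rw [mk_m] at h; exact h
    obtain ⟨L, hLA, hL⟩ := exists_Ioc_subset_of_mem_nhds hnhds ⟨_, hEA⟩
    obtain ⟨α, h1, h2, h3⟩ := lt_iff.1 hLA
    obtain ⟨β, hβ, hαβ, hβδ⟩ := hlim2 α (hlt α h3)
    obtain ⟨γ0, hγ0, hβγ0, hγ0δ⟩ := hlim2 β hβδ
    obtain ⟨γ, hγ1, hγ2⟩ := hS.exists_gt δ
    have hβγ : β < γ := hβδ.trans hγ2
    refine ⟨mk _ (cut_pt' A β γ hγ1 hβγ hβ), γ, (mk_m _ _ γ).2 (Or.inr rfl), fun B hB => hL ?_⟩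
    have hB' : ∀ j, j ≤ γ → (B.m j ↔ cut A β γ j) := fun j hj => by
      rw [hB j hj, mk_m]
    refine ⟨lt_iff.2 ⟨α, fun j hj => ?_, h2, ?_⟩, ?_⟩
    · rw [h1 j hj, hB' j ((hj.trans hαβ).trans hβγ).le]
      unfold cut
      constructor
      · intro h
        exact Or.inl ⟨h, (hj.trans hαβ).le⟩
      · rintro (⟨h, -⟩ | h)
        · exact h
        · exact absurd h ((hj.trans hαβ).trans hβγ).ne
    · rw [hB' α (hαβ.trans hβγ).le]
      exact Or.inl ⟨h3, hαβ.le⟩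
    · refine (lt_of_sub δ (fun j hj h => ?_) ⟨γ0, hγ0δ, hγ0, fun h => ?_⟩).le
      · rcases (hB' j (hj.trans hγ2).le).1 h with h | h
        · exact h.1
        · exact absurd h (hj.trans hγ2).ne
      · rcases (hB' γ0 (hγ0δ.trans hγ2).le).1 h with h | h
        · exact absurd h.2 (not_le.2 hβγ0)
        · exact absurd h (hγ0δ.trans hγ2).ne

/-- The nodes of the tree: initial segments of points with a largest element. -/
structure Node (S : Set Om) where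
  A : X S
  μ : Om
  h : A.m μ

/-- the cone of a node -/
def Node.c (N : Node S) : Set (X S) := cone N.A N.μ

/-- extension of nodes -/
def Ext (N N' : Node S) : Prop := N.μ ≤ N'.μ ∧ N'.A ∈ cone N.A N.μ

lemma Ext.refl (N : Node S) : Ext N N := ⟨le_rfl, fun _ _ => Iff.rfl⟩

lemma Ext.c_sub {N N' : Node S} (h : Ext N N') : N'.c ⊆ N.c := by
  intro B hB j hj
  rw [hB j (hj.trans h.1), h.2 j hj]

lemma Ext.trans {N N' N'' : Node S} (h : Ext N N') (h' : Ext N' N'') : Ext N N'' := by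
  refine ⟨h.1.trans h'.1, fun j hj => ?_⟩
  rw [h'.2 j (hj.trans h.1), h.2 j hj]

lemma extend (hS : St S) (N : Node S) (γ : Om) :
    ∃ N', Ext N N' ∧ γ < N'.μ ∧ N.μ < N'.μ := by
  obtain ⟨γ1, h1, h2⟩ := hS.exists_gt (max γ N.μ)
  have h3 : N.μ < γ1 := (le_max_right _ _).trans_lt h2
  refine ⟨⟨mk _ (cut_pt' N.A N.μ γ1 h1 h3 N.h), γ1, (mk_m _ _ γ1).2 (Or.inr rfl)⟩,
    ⟨h3.le, fun j hj => ?_⟩, (le_max_left _ _).trans_lt h2, h3⟩
  rw [mk_m]
  have h4 : j ≠ γ1 := (lt_of_le_of_lt hj h3).ne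
  simp [cut, h4, hj]

/-- the node decides the set `O`. -/
def Dec (O : Set (X S)) (N : Node S) : Prop :=
  N.c ⊆ O ∨ ∀ N', Ext N N' → ¬ (N'.c ⊆ O)

lemma exists_dec (hS : St S) (O : Set (X S)) (N : Node S) (γ : Om) :
    ∃ N', Ext N N' ∧ γ < N'.μ ∧ N.μ < N'.μ ∧ Dec O N' := by
  obtain ⟨N1, h1, h2, h3⟩ := extend hS N γ
  by_cases h : ∃ N', Ext N1 N' ∧ N'.c ⊆ O
  · obtain ⟨N', h4, h5⟩ := h
    exact ⟨N', h1.trans h4, h2.trans_le h4.1, h3.trans_le h4.1, Or.inl h5⟩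
  · push Not at h
    exact ⟨N1, h1, h2, h3, Or.inr h⟩

/-- increasing sequences of nodes whose tops converge to a point of `S` have upper bounds -/
lemma exists_limit (N : ℕ → Node S) (hN : ∀ k, Ext (N k) (N (k + 1))) (δ : Om) (hδ : δ ∈ S)
    (h1 : ∀ k, (N k).μ < δ) (h2 : ∀ x, x < δ → ∃ k, x < (N k).μ) :
    ∃ M : Node S, ∀ k, Ext (N k) M := by
  have hmono : ∀ k l, k ≤ l → Ext (N k) (N l) := by
    intro k l hkl
    induction l, hkl using Nat.le_induction with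
    | base => exact Ext.refl _
    | succ l _ ih => exact ih.trans (hN l)
  let P : Om → Prop := fun i => (∃ k, i ≤ (N k).μ ∧ (N k).A.m i) ∨ i = δ
  have hP : ∀ k i, i ≤ (N k).μ → (P i ↔ (N k).A.m i) := by
    intro k i hi
    constructor
    · rintro (⟨l, h3, h4⟩ | h)
      · rcases le_total k l with hkl | hkl
        · exact ((hmono k l hkl).2 i hi).1 h4
        · exact ((hmono l k hkl).2 i h3).2 h4
      · exact absurd (h ▸ h1 k) (not_lt.2 hi)
    · intro h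
      exact Or.inl ⟨k, hi, h⟩
  have hPle : ∀ i, P i → i ≤ δ := by
    rintro i (⟨k, h3, -⟩ | h)
    · exact (h3.trans_lt (h1 k)).le
    · exact h.le
  have hpt : Pt S P := by
    refine ⟨?_, ?_⟩
    · rintro a (⟨k, -, h⟩ | h)
      · exact (N k).A.pt.1 a h
      · exact h ▸ hδ
    · rintro ε ⟨h3, h4⟩ ⟨γ, hγ, hεγ⟩
      have hεδ : ε < δ := hεγ.trans_le (hPle γ hγ)
      obtain ⟨k, hk⟩ := h2 ε hεδ
      rw [hP k ε hk.le]
      refine (N k).A.pt.2 ε ⟨h3, fun x hx => ?_⟩ ⟨(N k).μ, (N k).h, hk⟩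
      obtain ⟨a, h5, h6, h7⟩ := h4 x hx
      exact ⟨a, (hP k a (h7.trans hk).le).1 h5, h6, h7⟩
  refine ⟨⟨mk P hpt, δ, (mk_m _ _ δ).2 (Or.inr rfl)⟩, fun k => ⟨(h1 k).le, fun j hj => ?_⟩⟩
  rw [mk_m]
  exact hP k j hj

lemma exists_node (hS : St S) : Nonempty (Node S) := by
  obtain ⟨b0, -⟩ := exists_bound countable_empty
  obtain ⟨γ, hγ, -⟩ := hS.exists_gt b0
  have hpt : Pt S (fun i => i = γ) := by
    refine ⟨?_, ?_⟩
    · rintro a rfl; exact hγ
    · rintro δ ⟨⟨x, hx⟩, h⟩ ⟨γ', hγ', h1⟩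
      obtain ⟨a, ha, -, h2⟩ := h x hx
      rw [ha] at h2
      rw [hγ'] at h1
      exact absurd h1 (not_lt.2 h2.le)
  exact ⟨⟨mk _ hpt, γ, (mk_m _ _ γ).2 rfl⟩⟩

/-- Some node decides all sets of a sequence. -/
lemma exists_dec_all (hS : St S) (O : ℕ → Set (X S)) :
    ∃ (M : Node S), ∀ n, ∃ N : Node S, Ext N M ∧ Dec (O n) N := by
  classical
  obtain ⟨N0⟩ := exists_node hS
  choose E hE1 hE2 hE3 hE4 using fun (N : Node S) (n : ℕ) (γ : Om) => exists_dec hS (O n) N γ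
  let t : List (ℕ × Om) → Node S := fun s => s.foldr (fun p N => E N p.1 p.2) N0
  have ht : ∀ p s, t (p :: s) = E (t s) p.1 p.2 := fun p s => rfl
  have hg : ∀ γ : Om, ∃ b, ∀ s : List (ℕ × Om), (∀ p ∈ s, p.2 ≤ γ) → (t s).μ < b := by
    intro γ
    have : Countable (Iic γ) := (countable_Iic γ).to_subtype
    let F : List (ℕ × Iic γ) → Om := fun s => (t (s.map (fun p => (p.1, p.2.1)))).μ
    obtain ⟨b, hb⟩ := exists_bound (countable_range F)
    refine ⟨b, fun s hs => ?_⟩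
    have h1 : ∃ s' : List (ℕ × Iic γ), s'.map (fun p => (p.1, p.2.1)) = s := by
      clear hb
      induction s with
      | nil => exact ⟨[], rfl⟩
      | cons p s ih =>
        obtain ⟨s', hs'⟩ := ih (fun q hq => hs q (List.mem_cons_of_mem _ hq))
        exact ⟨(p.1, ⟨p.2, hs p List.mem_cons_self⟩) :: s', by simp [hs']⟩
    obtain ⟨s', rfl⟩ := h1
    exact hb _ ⟨s', rfl⟩
  choose g hg using hg
  obtain ⟨b0, -⟩ := exists_bound countable_empty
  obtain ⟨δ, hδS, hb0, hδ⟩ := hS g b0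
  obtain ⟨e, he⟩ := (countable_Iio δ).exists_eq_range ⟨b0, hb0⟩
  have heδ : ∀ k, e k < δ := fun k => by
    have : e k ∈ Iio δ := by rw [he]; exact ⟨k, rfl⟩
    exact this
  let s : ℕ → List (ℕ × Om) := fun k => Nat.rec [] (fun k s => (k, e k) :: s) k
  have hs : ∀ k, s (k + 1) = (k, e k) :: s k := fun k => rfl
  have hsb : ∀ k, ∃ γ, γ < δ ∧ ∀ p ∈ s k, p.2 ≤ γ := by
    intro k
    induction k with
    | zero => exact ⟨b0, hb0, fun p hp => by simp [s] at hp⟩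
    | succ k ih =>
      obtain ⟨γ, h1, h2⟩ := ih
      refine ⟨max γ (e k), max_lt h1 (heδ k), fun p hp => ?_⟩
      rw [hs] at hp
      rcases List.mem_cons.1 hp with h | h
      · rw [h]; exact le_max_right _ _
      · exact (h2 p h).trans (le_max_left _ _)
  have hN : ∀ k, t (s (k + 1)) = E (t (s k)) k (e k) := fun k => rfl
  obtain ⟨M, hM⟩ := exists_limit (fun k => t (s k)) (fun k => by rw [hN]; exact hE1 _ _ _) δ hδS
    (by
      intro k
      obtain ⟨γ, h1, h2⟩ := hsb k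
      exact (hg γ (s k) h2).trans (hδ γ h1))
    (by
      intro x hx
      have : x ∈ range e := by rw [← he]; exact hx
      obtain ⟨k, rfl⟩ := this
      refine ⟨k + 1, ?_⟩
      rw [hN]
      exact hE2 _ _ _)
  refine ⟨M, fun n => ⟨t (s (n + 1)), hM (n + 1), ?_⟩⟩
  rw [hN]
  exact hE4 _ _ _

/-- The space does not have the Blumberg property. -/
theorem not_blumberg [TopologicalSpace (X S)] [OrderTopology (X S)] (hS : St S) (hS' : St Sᶜ) :
    ∃ f : X S → ℝ, ∀ D : Set (X S), Dense D → ¬ Continuous (fun x : D => f x) := by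
  obtain ⟨r, hr⟩ : ∃ r : Om → ℝ, Function.Injective r := by
    have h : #Om ≤ #ℝ := by
      rw [mk_Om, mk_real]
      exact aleph_one_le_continuum
    exact ⟨h.some, h.some.injective⟩
  choose rk hrk using bounded (S := S) hS'
  refine ⟨fun A => r (rk A), fun D hD hcont => ?_⟩
  have h1 : ∀ n : ℕ, ∃ O : Set (X S), IsOpen O ∧
      ∀ x ∈ D, (x ∈ O ↔ r (rk x) < ((Denumerable.eqv ℚ).symm n : ℝ)) := by
    intro n
    have h2 : IsOpen ((fun x : D => r (rk x)) ⁻¹'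
        Iio ((Denumerable.eqv ℚ).symm n : ℝ)) := isOpen_Iio.preimage hcont
    obtain ⟨O, hO, hO'⟩ := isOpen_induced_iff.1 h2
    refine ⟨O, hO, fun x hx => ?_⟩
    exact Set.ext_iff.1 hO' ⟨x, hx⟩
  choose O hO hOD using h1
  obtain ⟨M, hM⟩ := exists_dec_all hS O
  obtain ⟨W, hW, hWne, hWM⟩ := cone_open hS M.A M.μ M.h
  have hkey : ∀ n, W ⊆ O n ∨ W ∩ O n = ∅ := by
    intro n
    obtain ⟨N, hNM, hN⟩ := hM n
    rcases hN with h | h
    · exact Or.inl ((hWM.trans hNM.c_sub).trans h)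
    · refine Or.inr ?_
      by_contra hne
      have hne' := nonempty_iff_ne_empty.2 hne
      obtain ⟨A, μ, hμ, hc⟩ := exists_cone hS hS' _ (hW.inter (hO n)) hne'
      obtain ⟨N', h1, h2, h3⟩ := extend hS ⟨A, μ, hμ⟩ N.μ
      have h4 : N'.A ∈ N'.c := fun _ _ => Iff.rfl
      have h5 : N'.A ∈ N.c := hNM.c_sub (hWM (hc (h1.c_sub h4)).1)
      exact h N' ⟨h2.le, h5⟩ (fun B hB => (hc (h1.c_sub hB)).2)
  have hconst : ∀ x ∈ D, x ∈ W → ∀ y ∈ D, y ∈ W → ¬ (r (rk x) < r (rk y)) := by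
    intro x hx hxW y hy hyW hlt
    obtain ⟨q, hq1, hq2⟩ := exists_rat_btwn hlt
    have hn : ((Denumerable.eqv ℚ).symm ((Denumerable.eqv ℚ) q) : ℝ) = q := by simp
    have h1 := hOD ((Denumerable.eqv ℚ) q)
    rw [hn] at h1
    have h2 : x ∈ O ((Denumerable.eqv ℚ) q) := (h1 x hx).2 hq1
    rcases hkey ((Denumerable.eqv ℚ) q) with h | h
    · exact absurd ((h1 y hy).1 (h hyW)) (not_lt.2 hq2.le)
    · have : x ∈ W ∩ O ((Denumerable.eqv ℚ) q) := ⟨hxW, h2⟩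
      rw [h] at this
      exact this
  obtain ⟨x, hxW, hxD⟩ := hD.inter_open_nonempty W hW hWne
  obtain ⟨A, μ, hμ, hc⟩ := exists_cone hS hS' W hW hWne
  obtain ⟨N', h1, h2, -⟩ := extend hS ⟨A, μ, hμ⟩ (rk x)
  obtain ⟨W', hW', hW'ne, hW'N⟩ := cone_open hS N'.A N'.μ N'.h
  obtain ⟨y, hyW', hyD⟩ := hD.inter_open_nonempty W' hW' hW'ne
  have hyN : y ∈ N'.c := hW'N hyW'
  have hyW : y ∈ W := hc (h1.c_sub hyN)
  have h3 : r (rk x) = r (rk y) :=
    le_antisymm (not_lt.1 (hconst y hyD hyW x hxD hxW)) (not_lt.1 (hconst x hxD hxW y hyD hyW))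
  have h4 : rk x = rk y := hr h3
  have h5 : y.m N'.μ := (hyN N'.μ le_rfl).2 N'.h
  have h6 := hrk y _ h5
  rw [← h4] at h6
  exact absurd h6 (not_lt.2 h2.le)

end Pool.Agent.N480.Blum
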